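import Pool.Agent.Helper65.LG.Defs

/-! # LG, package L3: counting along the tree of cylinders -/

set_option autoImplicit false

open Finset Pool.Agent.Helper65.LG

namespace Pool.Agent.Helper5.LG

open Classical in
/-- an arithmetic progression in `[-X, X]` -/
theorem ap_card (X D : ℕ) (x0 : ℤ) (hD : 0 < D) (hDX : D ≤ X) (p : ℤ → Prop)
    (hp : ∀ x, p x → ∃ t : ℤ, x = x0 + (D : ℤ) * t) :
    (((Icc (-(X : ℤ)) X).filter p).card : ℝ) ≤ 3 * X / D := by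
  have hD' : (0 : ℝ) < D := by exact_mod_cast hD
  set u : ℤ := ⌈((-(X : ℝ)) - x0) / D⌉ with hu
  set v : ℤ := ⌊((X : ℝ) - x0) / D⌋ with hv
  have hsub : (Icc (-(X : ℤ)) X).filter p ⊆ (Icc u v).image (fun t => x0 + (D : ℤ) * t) := by
    intro x hx
    rw [mem_filter, mem_Icc] at hx
    obtain ⟨t, ht⟩ := hp x hx.2
    rw [mem_image]
    refine ⟨t, ?_, ht.symm⟩
    rw [mem_Icc]
    have e : (x : ℝ) = x0 + D * t := by rw [ht]; push_cast; ring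
    have h1 : (-(X : ℝ)) ≤ x := by exact_mod_cast hx.1.1
    have h2 : (x : ℝ) ≤ X := by exact_mod_cast hx.1.2
    constructor
    · rw [hu, Int.ceil_le, div_le_iff₀ hD']
      nlinarith
    · rw [hv, Int.le_floor, le_div_iff₀ hD']
      nlinarith
  have hc : (((Icc (-(X : ℤ)) X).filter p).card : ℝ) ≤ ((v + 1 - u).toNat : ℝ) := by
    have : ((Icc (-(X : ℤ)) X).filter p).card ≤ (v + 1 - u).toNat := by
      calc _ ≤ _ := card_le_card hsub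
        _ ≤ _ := card_image_le
        _ = _ := Int.card_Icc _ _
    exact_mod_cast this
  refine hc.trans ?_
  have h3 : (v : ℝ) ≤ ((X : ℝ) - x0) / D := Int.floor_le _
  have h4 : ((-(X : ℝ)) - x0) / D ≤ u := Int.le_ceil _
  have h5 : (v : ℝ) + 1 - u ≤ 2 * X / D + 1 := by
    have : ((X : ℝ) - x0) / D - ((-(X : ℝ)) - x0) / D = 2 * X / D := by ring
    linarith
  have h6 : (1 : ℝ) ≤ X / D := by
    rw [le_div_iff₀ hD', one_mul]
    exact_mod_cast hDX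
  have h7 : 3 * (X : ℝ) / D = 2 * X / D + X / D := by ring
  rcases le_total 0 (v + 1 - u) with h | h
  · have : (((v + 1 - u).toNat : ℤ) : ℝ) = ((v + 1 - u : ℤ) : ℝ) := by rw [Int.toNat_of_nonneg h]
    have e2 : (((v + 1 - u).toNat : ℕ) : ℝ) = (v : ℝ) + 1 - u := by
      rw [← Int.cast_natCast, this]; push_cast; ring
    rw [e2, h7]
    linarith
  · rw [Int.toNat_of_nonpos h]
    push_cast
    positivity

/-- `x` in a progression, with a property -/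
def CylP (q : ℤ → Prop) (x0 : ℤ) (D : ℕ) (x : ℤ) : Prop := (∃ t : ℤ, x = x0 + (D : ℤ) * t) ∧ q x

open Classical in
/-- the elements of a progression in `[-X, X]` with a property -/
noncomputable def cyl (X : ℕ) (q : ℤ → Prop) (x0 : ℤ) (D : ℕ) : Finset ℤ :=
  (Icc (-(X : ℤ)) X).filter (CylP q x0 D)

open Classical in
theorem mem_cyl {X : ℕ} {q : ℤ → Prop} {x0 : ℤ} {D : ℕ} {x : ℤ} :
    x ∈ cyl X q x0 D ↔ x ∈ Icc (-(X : ℤ)) X ∧ (∃ t : ℤ, x = x0 + (D : ℤ) * t) ∧ q x := by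
  unfold cyl
  rw [mem_filter]
  exact Iff.rfl

theorem cyl_card (X : ℕ) (q : ℤ → Prop) (x0 : ℤ) (D : ℕ) (hD : 0 < D) (hDX : D ≤ X) :
    ((cyl X q x0 D).card : ℝ) ≤ 3 * X / D :=
  ap_card X D x0 hD hDX _ (fun _ hx => hx.1)

/-- bad from level `l` on -/
def BadFrom (G : GMap) (F : ℕ → ℕ × ℕ → ℝ) (n : ℕ) (Bad : ℕ → (ℕ → ℝ) → ℕ × ℕ → Prop)
    (B₀ : ℕ × ℕ) (l : ℕ) (x : ℤ) : Prop :=
  ∃ l' ≤ n, l ≤ l' ∧ Bad l' (fun a => S G (F a) B₀ x l') (Y G B₀ x l')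

/-- a cylinder of the tree -/
structure Cy (G : GMap) (F : ℕ → ℕ × ℕ → ℝ) (X : ℕ)
    (Bad : ℕ → (ℕ → ℝ) → ℕ × ℕ → Prop) (B₀ : ℕ × ℕ) (l : ℕ) (x0 y0 b : ℤ) (D : ℕ)
    (B : ℕ × ℕ) (w : ℕ → ℝ) (s : ℝ) : Prop where
  hDX : D ≤ X
  hD0 : 0 < D
  hDs : (D : ℝ) = (G.d * B.2 : ℕ) * Real.exp s
  hy : y0 ∈ cls G B
  hb : IsCoprime b (G.d : ℤ)
  hcl : ∀ t : ℤ, x0 + (D : ℤ) * t ∈ cls G B₀
  hY : ∀ t : ℤ, Y G B₀ (x0 + (D : ℤ) * t) l = B
  hS : ∀ t : ℤ, ∀ a, S G (F a) B₀ (x0 + (D : ℤ) * t) l = w a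
  hs : ∀ t : ℤ, S G (f2 G) B₀ (x0 + (D : ℤ) * t) l = s
  hT : ∀ t : ℤ, (T G)^[l] (x0 + (D : ℤ) * t) = y0 + ((G.d * B.2 : ℕ) : ℤ) * b * t
  hnb : ∀ t : ℤ, ∀ l' < l, ¬ Bad l' (fun a => S G (F a) B₀ (x0 + (D : ℤ) * t) l')
        (Y G B₀ (x0 + (D : ℤ) * t) l')

variable {G : GMap} {C : Finset (ℕ × ℕ)} {F : ℕ → ℕ × ℕ → ℝ} {X n : ℕ}
  {Bad : ℕ → (ℕ → ℝ) → ℕ × ℕ → Prop} {B₀ : ℕ × ℕ} {l : ℕ} {x0 y0 b : ℤ} {D : ℕ}
  {B : ℕ × ℕ} {w : ℕ → ℝ} {s : ℝ}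

theorem Cy.not_bad (h : Cy G F X Bad B₀ l x0 y0 b D B w s) (hbad : ¬ Bad l w B) (t : ℤ)
    {l' : ℕ} (hl' : l' ≤ l) : ¬ Bad l' (fun a => S G (F a) B₀ (x0 + (D : ℤ) * t) l')
        (Y G B₀ (x0 + (D : ℤ) * t) l') := by
  rcases Nat.lt_or_ge l' l with h' | h'
  · exact h.hnb t l' h'
  · have : l' = l := by omega
    subst this
    have e : (fun a => S G (F a) B₀ (x0 + (D : ℤ) * t) l') = w := funext fun a => h.hS t a
    rw [e, h.hY t]
    exact hbad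

/-- basic facts on a state -/
theorem facts (h1 : S_step1) (hBk : 1 ≤ B.2) (hBlt : B.1 < G.d * B.2) :
    ∃ e : ℕ, G.d = gg G B * e ∧ G.d / gg G B = e ∧ 0 < e ∧ 0 < gg G B ∧
      0 < dd G (B.1 % G.d) := by
  obtain ⟨s1, s2, s3, s4⟩ := h1 G B hBk hBlt
  have hd2 := G.hd
  have hggd : gg G B ∣ G.d := Nat.gcd_dvd_right _ _
  have hgg0 : 0 < gg G B := Nat.gcd_pos_of_pos_right _ (by omega)
  obtain ⟨e, he⟩ := hggd
  refine ⟨e, he, ?_, ?_, hgg0, ?_⟩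
  · rw [he]; exact Nat.mul_div_cancel_left _ hgg0
  · rcases Nat.eq_zero_or_pos e with h0 | h0
    · rw [h0] at he; omega
    · exact h0
  · rcases Nat.eq_zero_or_pos (dd G (B.1 % G.d)) with h0 | h0
    · rw [h0, mul_zero] at s4
      rcases Nat.mul_eq_zero.1 s4 with h | h <;> omega
    · exact h0

/-- a child of a cylinder -/
theorem Cy.child (h1 : S_step1) (h3 : S_step3) (hBk : 1 ≤ B.2) (hBlt : B.1 < G.d * B.2)
    (h : Cy G F X Bad B₀ l x0 y0 b D B w s) (hbad : ¬ Bad l w B)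
    (hD : (G.d : ℝ) * D ≤ X) {B' : ℕ × ℕ} (hs' : Succ G B B') :
    ∃ (t0 y1 b1 : ℤ) (e : ℕ), 0 < e ∧ G.d = gg G B * e ∧
      Cy G F X Bad B₀ (l + 1) (x0 + (D : ℤ) * t0) y1 b1 (D * e) B' (fun a => w a + F a B)
        (s + f2 G B) ∧
      ∀ t : ℤ, nxt G B (y0 + ((G.d * B.2 : ℕ) : ℤ) * b * t) = B' →
        ∃ z : ℤ, x0 + (D : ℤ) * t = x0 + (D : ℤ) * t0 + ((D * e : ℕ) : ℤ) * z := by
  obtain ⟨e, he, hdiv, he0, hgg0, hdd0⟩ := facts h1 hBk hBlt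
  obtain ⟨s1, s2, s3, s4⟩ := h1 G B hBk hBlt
  obtain ⟨t0, y1, b1, c1, c2, c3, c4⟩ := h3 G B hBk hBlt B' hs' y0 b h.hy h.hb
  have hd2 := G.hd
  have hk' : B'.2 = kk G B := hs'.1
  rw [hdiv] at c3 c4
  have hpar : ∀ t : ℤ, x0 + (D : ℤ) * t0 + ((D * e : ℕ) : ℤ) * t =
      x0 + (D : ℤ) * (t0 + (e : ℤ) * t) := by
    intro t; push_cast; ring
  have hTl : ∀ t : ℤ, (T G)^[l] (x0 + (D : ℤ) * (t0 + (e : ℤ) * t)) =
      y0 + ((G.d * B.2 : ℕ) : ℤ) * b * (t0 + (e : ℤ) * t) := fun t => h.hT _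
  have hnx : ∀ t : ℤ, nxt G B (y0 + ((G.d * B.2 : ℕ) : ℤ) * b * (t0 + (e : ℤ) * t)) =
      B' := by
    intro t
    rw [c3]
    exact ⟨t, by ring⟩
  have hDe : D * e ≤ X := by
    have h11 : ((D * e : ℕ) : ℝ) ≤ G.d * D := by
      rw [he]; push_cast
      have hg1 : (1 : ℝ) ≤ gg G B := by exact_mod_cast hgg0
      have : (0 : ℝ) ≤ e * D := by positivity
      nlinarith
    exact_mod_cast h11.trans hD
  have hDs' : ((D * e : ℕ) : ℝ) = (G.d * B'.2 : ℕ) * Real.exp (s + f2 G B) := by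
    have hddr : (0 : ℝ) < dd G (B.1 % G.d) := by exact_mod_cast hdd0
    have hdr : (0 : ℝ) < G.d := by exact_mod_cast (by omega : 0 < G.d)
    have e1 : (gg G B : ℝ) * kk G B = B.2 * dd G (B.1 % G.d) := by exact_mod_cast s4
    have e2 : (G.d : ℝ) = gg G B * e := by exact_mod_cast he
    have e3 := h.hDs
    rw [Real.exp_add, f2, Real.exp_log (by positivity), hk']
    push_cast at e3 ⊢
    rw [e3]
    rw [mul_div_assoc', mul_div_assoc', eq_div_iff hddr.ne']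
    linear_combination (-((G.d : ℝ) * Real.exp s * e)) * e1 - (G.d : ℝ) * Real.exp s * kk G B * e2
  refine ⟨t0, y1, b1, e, he0, he, ⟨hDe, Nat.mul_pos h.hD0 he0, hDs', c1, c2, ?_, ?_, ?_, ?_, ?_,
    ?_⟩, ?_⟩
  · intro t; rw [hpar]; exact h.hcl _
  · intro t; rw [hpar]
    show nxt G (Y G B₀ _ l) _ = B'
    rw [h.hY, hTl, hnx]
  · intro t a; rw [hpar]
    have e5 := h.hS (t0 + (e : ℤ) * t) a
    rw [S] at e5 ⊢
    rw [sum_range_succ, e5, h.hY]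
  · intro t; rw [hpar]
    have e5 := h.hs (t0 + (e : ℤ) * t)
    rw [S] at e5 ⊢
    rw [sum_range_succ, e5, h.hY]
  · intro t; rw [hpar, Function.iterate_succ_apply', hTl, c4]
  · intro t l' hl'
    rw [hpar]
    exact h.not_bad hbad _ (Nat.lt_succ_iff.1 hl')
  · intro t ht
    obtain ⟨z, hz⟩ := (c3 t).1 ht
    refine ⟨z, ?_⟩
    rw [hpar, ← hz]
    ring

theorem cyl_step (h1 : S_step1) (h3 : S_step3) (hC : IsClass G C) (hB : B ∈ C)
    (h : Cy G F X Bad B₀ l x0 y0 b D B w s) (hbad : ¬ Bad l w B)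
    (hD : (G.d : ℝ) * D ≤ X) (Φ' : ℕ × ℕ → ℝ) (hΦ' : ∀ B', 0 ≤ Φ' B')
    (ih : ∀ (x1 y1 b1 : ℤ) (D1 : ℕ) (B1 : ℕ × ℕ) (s1 : ℝ), B1 ∈ C →
      Cy G F X Bad B₀ (l + 1) x1 y1 b1 D1 B1 (fun a => w a + F a B) s1 →
      ((cyl X (BadFrom G F n Bad B₀ (l + 1)) x1 D1).card : ℝ) ≤ 3 * X / D1 * Φ' B1) :
    ((cyl X (BadFrom G F n Bad B₀ l) x0 D).card : ℝ) ≤
      3 * X / D * ∑ B' ∈ C, P G B B' * Φ' B' := by
  classical
  obtain ⟨hBk, hBlt⟩ := hC.state B hB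
  have key : ∀ B', Succ G B B' → ∃ U : Finset ℤ,
      (∀ x ∈ cyl X (BadFrom G F n Bad B₀ (l + 1)) x0 D, ∀ t : ℤ, x = x0 + (D : ℤ) * t →
        nxt G B (y0 + ((G.d * B.2 : ℕ) : ℤ) * b * t) = B' → x ∈ U) ∧
      (U.card : ℝ) ≤ 3 * X / D * (P G B B' * Φ' B') := by
    intro B' hs'
    obtain ⟨t0, y1, b1, e, he0, he, hcy, hcov⟩ := h.child h1 h3 hBk hBlt hbad hD hs'
    refine ⟨cyl X (BadFrom G F n Bad B₀ (l + 1)) (x0 + (D : ℤ) * t0) (D * e), ?_, ?_⟩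
    · intro x hx t hxt hn
      obtain ⟨a1, a2, a3⟩ := mem_cyl.1 hx
      obtain ⟨z, hz⟩ := hcov t hn
      exact mem_cyl.2 ⟨a1, ⟨z, by rw [hxt, hz]⟩, a3⟩
    · refine (ih _ _ _ _ _ _ (hC.closed B hB B' hs') hcy).trans (le_of_eq ?_)
      have hP : P G B B' = (gg G B : ℝ) / G.d := by
        rw [P, if_pos hs']
      have hDr : (D : ℝ) ≠ 0 := by exact_mod_cast h.hD0.ne'
      have her : (e : ℝ) ≠ 0 := by exact_mod_cast he0.ne'
      obtain ⟨e', he', -, he0', hgg0, -⟩ := facts h1 hBk hBlt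
      have hggr : (gg G B : ℝ) ≠ 0 := by exact_mod_cast hgg0.ne'
      have e2 : (G.d : ℝ) = gg G B * e := by exact_mod_cast he
      rw [hP, e2]
      push_cast
      rw [div_mul_eq_mul_div, div_mul_eq_mul_div, div_mul_eq_mul_div, mul_div_assoc',
        div_eq_div_iff (mul_ne_zero hDr her) hDr,
        div_mul_eq_mul_div, eq_div_iff (mul_ne_zero hggr her)]
      ring
  choose! U hU1 hU2 using key
  have hcov : cyl X (BadFrom G F n Bad B₀ l) x0 D ⊆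
      (C.filter (fun B' => Succ G B B')).biUnion U := by
    intro x hx
    obtain ⟨hx1, ⟨t, hx2⟩, l', h5, h6, h7⟩ := mem_cyl.1 hx
    have hyc : y0 + ((G.d * B.2 : ℕ) : ℤ) * b * t ∈ cls G B := by
      have h8 : y0 ≡ (B.1 : ℤ) [ZMOD ((G.d * B.2 : ℕ) : ℤ)] := h.hy
      show y0 + ((G.d * B.2 : ℕ) : ℤ) * b * t ≡ (B.1 : ℤ) [ZMOD ((G.d * B.2 : ℕ) : ℤ)]
      refine Int.ModEq.trans ?_ h8
      exact (Int.modEq_iff_dvd).2 ⟨-(b * t), by ring⟩
    have hsucc := ((h1 G B hBk hBlt).2.1 _ hyc).1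
    rw [mem_biUnion]
    refine ⟨_, mem_filter.2 ⟨hC.closed B hB _ hsucc, hsucc⟩, ?_⟩
    refine hU1 _ hsucc x (mem_cyl.2 ⟨hx1, ⟨t, hx2⟩, l', h5, ?_, h7⟩) t hx2 rfl
    rcases Nat.lt_or_ge l l' with h' | h'
    · omega
    · exfalso
      rw [hx2] at h7
      exact h.not_bad hbad t h' h7
  calc ((cyl X (BadFrom G F n Bad B₀ l) x0 D).card : ℝ)
      ≤ ∑ B' ∈ C.filter (fun B' => Succ G B B'), ((U B').card : ℝ) := by
        rw [← Nat.cast_sum]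
        exact Nat.cast_le.2 ((card_le_card hcov).trans card_biUnion_le)
    _ ≤ ∑ B' ∈ C.filter (fun B' => Succ G B B'), 3 * X / D * (P G B B' * Φ' B') :=
        sum_le_sum fun B' hB' => hU2 B' (by
          rw [mem_filter] at hB'
          exact hB'.2)
    _ = 3 * X / D * ∑ B' ∈ C.filter (fun B' => Succ G B B'), P G B B' * Φ' B' := by
        rw [mul_sum]
    _ ≤ 3 * X / D * ∑ B' ∈ C, P G B B' * Φ' B' := by
        have hf : C.filter (fun B' => Succ G B B') ⊆ C := filter_subset _ C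
        refine mul_le_mul_of_nonneg_left ?_ (by positivity)
        refine sum_le_sum_of_subset_of_nonneg hf fun B' _ _ => ?_
        refine mul_nonneg ?_ (hΦ' _)
        rw [P]
        split_ifs
        · positivity
        · exact le_refl _

open Classical in
theorem p_count (h1 : S_step1) (h3 : S_step3) : S_count := by
  intro G C F X n Bad Φ B₀ hC hB₀ hΦ0 hΦ1 hΦ hX hD
  have hB0 := hC.state B₀ hB₀
  have hd2 := G.hd
  have main : ∀ j l : ℕ, l + j = n → ∀ (x0 y0 b : ℤ) (D : ℕ) (B : ℕ × ℕ) (w : ℕ → ℝ) (s : ℝ),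
      B ∈ C → Cy G F X Bad B₀ l x0 y0 b D B w s →
      ((cyl X (BadFrom G F n Bad B₀ l) x0 D).card : ℝ) ≤ 3 * X / D * Φ l w B := by
    intro j
    induction j with
    | zero =>
      intro l hl x0 y0 b D B w s hB h
      have hap := cyl_card X (BadFrom G F n Bad B₀ l) x0 D h.hD0 h.hDX
      by_cases hbad : Bad l w B
      · refine hap.trans ?_
        have h0 : (0 : ℝ) ≤ 3 * X / D := by positivity
        have := hΦ1 l w B hB hbad
        nlinarith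
      · have : cyl X (BadFrom G F n Bad B₀ l) x0 D = ∅ := by
          rw [Finset.eq_empty_iff_forall_notMem]
          intro x hx
          obtain ⟨hx1, ⟨t, hx2⟩, l', h5, h6, h7⟩ := mem_cyl.1 hx
          rw [hx2] at h7
          exact h.not_bad hbad t (by omega) h7
        rw [this, card_empty]
        have := hΦ0 l w B
        push_cast
        positivity
    | succ j ih =>
      intro l hl x0 y0 b D B w s hB h
      have hap := cyl_card X (BadFrom G F n Bad B₀ l) x0 D h.hD0 h.hDX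
      have h0 : (0 : ℝ) ≤ 3 * X / D := by positivity
      by_cases hbad : Bad l w B
      · refine hap.trans ?_
        have := hΦ1 l w B hB hbad
        nlinarith
      · have hln : l < n := by omega
        have hDD : (G.d : ℝ) * D ≤ X := by
          have h10 := hD (x0 + (D : ℤ) * 0) (h.hcl 0) l hln
            (fun l' hl' => h.not_bad hbad 0 hl')
          rwa [h.hY 0, h.hs 0, ← h.hDs] at h10
        refine (cyl_step h1 h3 hC hB h hbad hDD (Φ (l + 1) (fun a => w a + F a B))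
          (fun B' => hΦ0 _ _ _) ?_).trans ?_
        · intro x1 y1 b1 D1 B1 s1 hB1 hcy
          exact ih (l + 1) (by omega) x1 y1 b1 D1 B1 _ s1 hB1 hcy
        · exact mul_le_mul_of_nonneg_left (hΦ l hln w B hB hbad) h0
  have hcy : Cy G F X Bad B₀ 0 (B₀.1 : ℤ) (B₀.1 : ℤ) 1 (G.d * B₀.2) B₀ (fun _ => 0) 0 := by
    refine ⟨hX, Nat.mul_pos (by omega) (by omega), by simp, Int.ModEq.refl _,
      isCoprime_one_left, ?_, fun t => rfl, fun t a => by simp [S], fun t => by simp [S],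
      fun t => by simp, by intro t l' hl'; omega⟩
    intro t
    exact (Int.modEq_iff_dvd).2 ⟨-t, by ring⟩
  have hstart := main n 0 (by omega) _ _ _ _ _ _ _ hB₀ hcy
  have e0 : (((G.d * B₀.2 : ℕ) : ℝ)) = (G.d : ℝ) * B₀.2 := by push_cast; ring
  rw [e0] at hstart
  refine le_trans ?_ hstart
  refine Nat.cast_le.2 (card_le_card ?_)
  intro x hx
  rw [mem_filter] at hx
  obtain ⟨hx1, hx2, l, hl, hx3⟩ := hx
  refine mem_cyl.2 ⟨hx1, ?_, l, hl, Nat.zero_le _, hx3⟩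
  have h8 : x ≡ (B₀.1 : ℤ) [ZMOD ((G.d * B₀.2 : ℕ) : ℤ)] := hx2
  obtain ⟨z, hz⟩ := (Int.modEq_iff_dvd).1 h8.symm
  exact ⟨z, by linarith⟩

end Pool.Agent.Helper5.LG
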